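import Mathlib
import Pool.Agent.H17.Zp2
import Pool.Agent.H17.Zp3

namespace Pool.Agent.Results.MP_4d0e60_an.CoindConn
open Pool.Agent.H17.Zp

theorem result : ∃ (X : Type) (_ : TopologicalSpace X) (_ : CompactSpace X)
    (_ : TopologicalSpace.MetrizableSpace X) (T : X ≃ₜ X), (∀ x, T x ≠ x) ∧
    ∀ (p : ℕ) [NeZero p], p.Prime → 3 ≤ p → IsGreatest {n | CoindMap T p n} (p / 3 - 1) ∧
      ∀ n, n + 2 ≤ p / 3 → NConn (Per T p) n :=
  ⟨XX, inferInstance, inferInstance, inferInstance, TT, TT_fix, fun _ _ hp h3 =>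
    ⟨coind_eq hp h3, fun _ hn => by
      obtain ⟨e, -⟩ := exists_homeo hp h3
      exact nconn_of e (by omega)⟩⟩

end Pool.Agent.Results.MP_4d0e60_an.CoindConn
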